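import Pool.Agent.TH747.HT.Ultra
import Pool.Agent.H645R2.HT.PartB

/-! The number of clusters of minima of a word, and how it detects whether the lower limit of a
sequence is finite. -/

namespace Pool.Agent.TH747.HT

open Filter Pool.Agent.H645R2.HT Pool.Agent.Helper446 Pool.Agent.Helper446.RE

/-- Number of new clusters when the word is read from left to right; `B` are the letters visible
from the right before the word. -/
def cl : List ℕ → List ℕ → ℕ
  | _, [] => 0
  | B, x :: w => (if x ∈ B then 0 else 1) + cl (x :: B.filter (fun z => decide (z < x))) w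

/-- Letters visible from the right after the word. -/
def rv : List ℕ → List ℕ → List ℕ
  | B, [] => B
  | B, x :: w => rv (x :: B.filter (fun z => decide (z < x))) w

theorem cl_append (B u w : List ℕ) : cl B (u ++ w) = cl B u + cl (rv B u) w := by
  induction u generalizing B with
  | nil => simp [cl, rv]
  | cons x u ih =>
    rw [List.cons_append]
    simp only [cl, rv]
    rw [ih]
    omega

theorem rv_append (B u w : List ℕ) : rv B (u ++ w) = rv (rv B u) w := by
  induction u generalizing B with
  | nil => simp [rv]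
  | cons x u ih =>
    rw [List.cons_append]
    simp only [rv]
    rw [ih]

/-- Small letters below do not matter. -/
theorem cl_small (w S B' T : List ℕ) (hm : ∀ x, x ∈ B' ↔ x ∈ S ∨ x ∈ T)
    (hT : ∀ x ∈ T, ∀ y ∈ w, x < y) : cl B' w = cl S w := by
  induction w generalizing S B' T with
  | nil => rfl
  | cons y w ih =>
    simp only [cl]
    have h1 : y ∈ B' ↔ y ∈ S := by
      rw [hm]
      constructor
      · rintro (h | h)
        · exact h
        · exact absurd (hT y h y (by simp)) (lt_irrefl _)
      · exact Or.inl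
    have h2 : cl (y :: B'.filter (fun z => decide (z < y))) w =
        cl (y :: S.filter (fun z => decide (z < y))) w := by
      refine ih _ _ T ?_ fun x hx z hz => hT x hx z (List.mem_cons_of_mem _ hz)
      intro x
      simp only [List.mem_cons, List.mem_filter, decide_eq_true_eq, hm]
      have h3 : x ∈ T → x < y := fun hx => hT x hx y (by simp)
      tauto
    rw [h2]
    by_cases hy : y ∈ S
    · rw [if_pos hy, if_pos (h1.2 hy)]
    · rw [if_neg hy, if_neg (fun h => hy (h1.1 h))]

/-- The smallest letter `b` below: exactly one cluster is saved if `b` occurs. -/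
theorem cl_merge (w S B' : List ℕ) (b : ℕ) (hm : ∀ x, x ∈ B' ↔ x ∈ S ∨ x = b)
    (hS : ∀ x ∈ S, b < x) (hw : ∀ y ∈ w, b ≤ y) :
    cl S w = cl B' w + if b ∈ w then 1 else 0 := by
  induction w generalizing S B' with
  | nil => simp [cl]
  | cons y w ih =>
    simp only [cl]
    have hw' : ∀ z ∈ w, b ≤ z := fun z hz => hw z (List.mem_cons_of_mem _ hz)
    rcases Nat.eq_or_lt_of_le (hw y (by simp)) with h | h
    · subst h
      have h1 : b ∉ S := fun h => lt_irrefl _ (hS b h)
      have h2 : b ∈ B' := (hm b).2 (Or.inr rfl)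
      rw [if_neg h1, if_pos h2, if_pos (by simp)]
      have h3 : S.filter (fun z => decide (z < b)) = [] := by
        rw [List.filter_eq_nil_iff]
        intro x hx
        have := hS x hx
        simp only [decide_eq_true_eq]
        omega
      have h4 : B'.filter (fun z => decide (z < b)) = [] := by
        rw [List.filter_eq_nil_iff]
        intro x hx
        simp only [decide_eq_true_eq]
        rcases (hm x).1 hx with h5 | h5
        · have := hS x h5
          omega
        · omega
      rw [h3, h4]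
      omega
    · have h1 : y ∈ B' ↔ y ∈ S := by
        rw [hm]
        constructor
        · rintro (h5 | h5)
          · exact h5
          · omega
        · exact Or.inl
      have h2 := ih (y :: S.filter (fun z => decide (z < y)))
        (y :: B'.filter (fun z => decide (z < y))) (by
          intro x
          simp only [List.mem_cons, List.mem_filter, decide_eq_true_eq, hm]
          constructor
          · rintro (h5 | ⟨h5 | h5, h6⟩)
            · exact Or.inl (Or.inl h5)
            · exact Or.inl (Or.inr ⟨h5, h6⟩)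
            · exact Or.inr h5
          · rintro ((h5 | ⟨h5, h6⟩) | h5)
            · exact Or.inl h5
            · exact Or.inr ⟨Or.inl h5, h6⟩
            · exact Or.inr ⟨Or.inr h5, by omega⟩) (by
          intro x hx
          simp only [List.mem_cons, List.mem_filter, decide_eq_true_eq] at hx
          rcases hx with h5 | ⟨h5, _⟩
          · omega
          · exact hS x h5) hw'
      rw [h2]
      have h3 : (b ∈ y :: w) ↔ b ∈ w := by
        simp only [List.mem_cons]
        constructor
        · rintro (h5 | h5)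
          · omega
          · exact h5
        · exact Or.inr
      by_cases hy : y ∈ S
      · rw [if_pos hy, if_pos (h1.2 hy)]
        simp only [h3]
        omega
      · rw [if_neg hy, if_neg (fun h => hy (h1.1 h))]
        simp only [h3]
        omega

theorem mem_rv_of {w B : List ℕ} {b : ℕ} (hw : ∀ y ∈ w, b ≤ y) (h : b ∈ w ∨ b ∈ B) :
    b ∈ rv B w := by
  induction w generalizing B with
  | nil => simpa [rv] using h
  | cons y w ih =>
    simp only [rv]
    refine ih (fun z hz => hw z (List.mem_cons_of_mem _ hz)) ?_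
    have h1 := hw y (by simp)
    simp only [List.mem_cons, List.mem_filter, decide_eq_true_eq] at h ⊢
    rcases h with (h | h) | h
    · exact Or.inr (Or.inl h)
    · exact Or.inl h
    · rcases Nat.eq_or_lt_of_le h1 with h2 | h2
      · exact Or.inr (Or.inl h2)
      · exact Or.inr (Or.inr ⟨h, h2⟩)

theorem rv_sub {w B : List ℕ} {x : ℕ} (h : x ∈ rv B w) : x ∈ w ∨ x ∈ B := by
  induction w generalizing B with
  | nil => exact Or.inr (by simpa [rv] using h)
  | cons y w ih =>
    simp only [rv] at h
    rcases ih h with h1 | h1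
    · exact Or.inl (List.mem_cons_of_mem _ h1)
    · simp only [List.mem_cons, List.mem_filter, decide_eq_true_eq] at h1 ⊢
      rcases h1 with h2 | ⟨h2, _⟩
      · exact Or.inl (Or.inl h2)
      · exact Or.inr h2

/-- Joining two words along their smallest letter. -/
theorem cl_join {u w : List ℕ} {b : ℕ} (hu : ∀ y ∈ u, b ≤ y) (hw : ∀ y ∈ w, b ≤ y) (hbu : b ∈ u)
    (hbw : b ∈ w) : cl [] (u ++ (b :: w)) + 1 = cl [] u + cl [] w := by
  rw [cl_append]
  simp only [cl]
  have h1 : b ∈ rv [] u := mem_rv_of hu (Or.inl hbu)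
  have h2 : (rv [] u).filter (fun z => decide (z < b)) = [] := by
    rw [List.filter_eq_nil_iff]
    intro x hx
    simp only [decide_eq_true_eq]
    rcases rv_sub hx with h3 | h3
    · have := hu x h3
      omega
    · simp at h3
  rw [if_pos h1, h2]
  have h3 := cl_merge w [] [b] b (by simp) (by simp) hw
  rw [if_pos hbw] at h3
  omega

/-- Joining two words, the second one consisting of large letters. -/
theorem cl_far {u w : List ℕ} {g : ℕ} (hw : ∀ y ∈ w, g < y) :
    cl [] (u ++ (g :: w)) = cl [] u + cl [] w ∨ cl [] (u ++ (g :: w)) = cl [] u + cl [] w + 1 := by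
  rw [cl_append]
  simp only [cl]
  have h3 := cl_small w [] (g :: (rv [] u).filter (fun z => decide (z < g)))
    (g :: (rv [] u).filter (fun z => decide (z < g))) (by simp) (by
      intro x hx y hy
      have := hw y hy
      simp only [List.mem_cons, List.mem_filter, decide_eq_true_eq] at hx
      omega)
  rw [h3]
  split_ifs <;> omega

/-- The word of the values of `m` at consecutive elements. -/
def gl (m : ℕ → ℕ → ℕ) : List ℕ → List ℕ
  | [] => []
  | [_] => []
  | a :: b :: l => m a b :: gl m (b :: l)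

theorem gl_append (m : ℕ → ℕ → ℕ) (l : List ℕ) (hl : l ≠ []) (r : List ℕ) (hr : r ≠ []) :
    gl m (l ++ r) = gl m l ++ (m (l.getLastD 0) (r.headD 0) :: gl m r) := by
  induction l with
  | nil => exact absurd rfl hl
  | cons a l ih =>
    cases l with
    | nil =>
      cases r with
      | nil => exact absurd rfl hr
      | cons b r => simp [gl]
    | cons b l =>
      have h := ih (by simp)
      have e : (a :: b :: l).getLastD 0 = (b :: l).getLastD 0 := by
        simp [List.getLastD_eq_getLast?, List.getLast?_cons_cons]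
      rw [e]
      simp only [List.cons_append, gl] at h ⊢
      rw [h]

/-- The least value of `y` on `(a, b]`. -/
def mn (y : ℕ → ℕ) (a b : ℕ) : ℕ := lst (fun v => exB (fun t => decide (a < t) && decide (y t = v)) (b + 1)) (y b)

theorem mn_le {y : ℕ → ℕ} {a b t : ℕ} (h1 : a < t) (h2 : t ≤ b) : mn y a b ≤ y t := by
  unfold mn
  by_cases hv : y t < y b
  · refine (lst_lt_of hv ?_).1
    rw [exB_iff]
    refine ⟨t, by omega, ?_⟩
    simp [h1]
  · rcases lst_spec (fun v => exB (fun t => decide (a < t) && decide (y t = v)) (b + 1)) (y b) with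
      ⟨h3, _⟩ | ⟨h3, _⟩
    · omega
    · omega

theorem mn_mem {y : ℕ → ℕ} {a b : ℕ} (h : a < b) : ∃ t, a < t ∧ t ≤ b ∧ mn y a b = y t := by
  unfold mn
  rcases lst_spec (fun v => exB (fun t => decide (a < t) && decide (y t = v)) (b + 1)) (y b) with
    ⟨h1, h2, _⟩ | ⟨h1, _⟩
  · rw [exB_iff] at h2
    obtain ⟨t, ht, h3⟩ := h2
    simp only [Bool.and_eq_true, decide_eq_true_eq] at h3
    exact ⟨t, h3.1, by omega, h3.2.symm⟩
  · exact ⟨b, h, le_rfl, h1⟩

/-- The word of `n`. -/
def wd (y : ℕ → ℕ) (n : ℕ) : List ℕ := gl (mn y) (L n)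

theorem mem_gl {y : ℕ → ℕ} {l : List ℕ} (hl : l.Pairwise (· < ·)) {v : ℕ} (h : v ∈ gl (mn y) l) :
    ∃ t, l.headD 0 < t ∧ v = y t := by
  induction l with
  | nil => simp [gl] at h
  | cons a l ih =>
    cases l with
    | nil => simp [gl] at h
    | cons b l =>
      simp only [gl, List.mem_cons] at h
      rw [List.pairwise_cons] at hl
      have hab := hl.1 b (by simp)
      rcases h with h | h
      · obtain ⟨t, h1, h2, h3⟩ := mn_mem (y := y) hab
        exact ⟨t, h1, by rw [h, h3]⟩
      · obtain ⟨t, h1, h2⟩ := ih hl.2 h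
        simp only [List.headD_cons] at h1 ⊢
        exact ⟨t, by omega, h2⟩

theorem mem_wd {y : ℕ → ℕ} {n v : ℕ} (h : v ∈ wd y n) : ∃ t, la n < t ∧ v = y t :=
  mem_gl (L_sorted n).pairwise h

theorem wd_add {y : ℕ → ℕ} {m n : ℕ} (hm : 0 < m) (hn : 0 < n) (h : Sep m n) :
    wd y (m + n) = wd y m ++ (mn y (mu m) (la n) :: wd y n) := by
  unfold wd
  rw [L_add h, gl_append _ _ (L_ne_nil hm) _ (L_ne_nil hn)]
  rfl

/-- The number of clusters. -/
def ncl (y : ℕ → ℕ) (n : ℕ) : ℕ := cl [] (wd y n)

variable {U : Ultrafilter ℕ}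

/-- If the lower limit is finite, the number of clusters is `1` modulo `3`. -/
theorem ncl_fin (hU : Idem U) {y : ℕ → ℕ} {b : ℕ} (h1 : ∀ N, ∃ t, N < t ∧ y t = b)
    (h2 : ∃ N, ∀ t, N < t → b ≤ y t) : ∀ᶠ n in (U : Filter ℕ), ncl y n % 3 = 1 := by
  obtain ⟨N, hN⟩ := h2
  have hge : ∀ n, N < la n → ∀ v ∈ wd y n, b ≤ v := by
    intro n hn v hv
    obtain ⟨t, ht, rfl⟩ := mem_wd hv
    exact hN t (by omega)
  -- the gap letter
  have hgap : ∀ m, 0 < m → N < la m → ∀ᶠ n in (U : Filter ℕ), Sep m n ∧ mn y (mu m) (la n) = b := by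
    intro m hm0 hm
    obtain ⟨t, ht, hyt⟩ := h1 (mu m)
    filter_upwards [hU.far (max t (mu m))] with n hn
    have hsep : Sep m n := by unfold Pool.Agent.H645R2.HT.Sep; omega
    refine ⟨hsep, le_antisymm ?_ ?_⟩
    · rw [← hyt]; exact mn_le ht (by omega)
    · obtain ⟨t', h3, _, h4⟩ := mn_mem (y := y) hsep
      rw [h4]
      exact hN t' (by have := la_le_mu hm0; omega)
  have hbm : ∀ᶠ n in (U : Filter ℕ), b ∈ wd y n := by
    rw [← hU.1]
    filter_upwards [hU.far N] with m hm
    filter_upwards [hgap m hm.1 hm.2, hU.2] with n hn hn0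
    rw [wd_add hm.1 hn0 hn.1, hn.2]
    simp
  obtain ⟨r, hr, hc⟩ := exists_const (U := U) (fun n => ncl y n % 3) 3
    (Eventually.of_forall fun n => Nat.mod_lt _ (by norm_num))
  have hc2 := (hU.1 (fun n => ncl y n % 3 = r)).2 hc
  obtain ⟨m, ⟨⟨hm1, hm2⟩, hm3⟩, hm4, hm5⟩ := ((hU.far N).and hbm |>.and (hc.and hc2)).exists
  obtain ⟨n, ⟨⟨hn1, hn2⟩, hn3⟩, ⟨hn4, hn5⟩, hn6, hn7⟩ :=
    ((hU.far N).and hbm |>.and ((hc.and hm5).and (hgap m hm1 hm2))).exists
  have key : ncl y (m + n) + 1 = ncl y m + ncl y n := by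
    unfold ncl
    rw [wd_add hm1 hn1 hn6, hn7]
    exact cl_join (hge m hm2) (hge n hn2) hm3 hn3
  have hr1 : r = 1 := by omega
  subst hr1
  exact hc

/-- If the sequence tends to infinity, the number of clusters is `0` or `2` modulo `3`. -/
theorem ncl_inf (hU : Idem U) {y : ℕ → ℕ} (h : ∀ B, ∃ N, ∀ t, N < t → B ≤ y t) :
    ∀ᶠ n in (U : Filter ℕ), ncl y n % 3 ≠ 1 := by
  obtain ⟨r, hr, hc⟩ := exists_const (U := U) (fun n => ncl y n % 3) 3
    (Eventually.of_forall fun n => Nat.mod_lt _ (by norm_num))
  have hc2 := (hU.1 (fun n => ncl y n % 3 = r)).2 hc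
  obtain ⟨m, hm1, hm4, hm5⟩ := (hU.2.and (hc.and hc2)).exists
  obtain ⟨N, hN⟩ := h (y (mu m + 1) + 1)
  obtain ⟨n, ⟨hn1, hn2⟩, hn4, hn5⟩ := ((hU.far (max N (mu m + 1))).and (hc.and hm5)).exists
  have hsep : Sep m n := by unfold Pool.Agent.H645R2.HT.Sep; omega
  have key : ncl y (m + n) = ncl y m + ncl y n ∨ ncl y (m + n) = ncl y m + ncl y n + 1 := by
    unfold ncl
    rw [wd_add hm1 hn1 hsep]
    refine cl_far fun v hv => ?_
    obtain ⟨t, ht, rfl⟩ := mem_wd hv
    have h3 := hN t (by omega)
    have h4 := mn_le (y := y) (a := mu m) (b := la n) (t := mu m + 1) (by omega) (by omega)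
    omega
  have hr1 : r ≠ 1 := by omega
  filter_upwards [hc] with n hn
  rw [hn]
  exact hr1

/-- If the sequence does not tend to infinity, the number of clusters is `1` modulo `3`. -/
theorem ncl_fin' (hU : Idem U) {y : ℕ → ℕ} (h : ¬ ∀ B, ∃ N, ∀ t, N < t → B ≤ y t) :
    ∀ᶠ n in (U : Filter ℕ), ncl y n % 3 = 1 := by
  classical
  push Not at h
  have h' : ∃ b, ∀ N, ∃ t, N < t ∧ y t ≤ b := by
    obtain ⟨B, hB⟩ := h
    exact ⟨B, fun N => by obtain ⟨t, h1, h2⟩ := hB N; exact ⟨t, h1, h2.le⟩⟩
  have h3 := Nat.find_spec h'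
  have h4 : ∀ b' < Nat.find h', ∃ N, ∀ t, N < t → b' < y t := by
    intro b' hb'
    have := Nat.find_min h' hb'
    push Not at this
    exact this
  generalize Nat.find h' = b at h3 h4
  have h5 : ∃ N, ∀ t, N < t → b ≤ y t := by
    cases b with
    | zero => exact ⟨0, fun t _ => Nat.zero_le _⟩
    | succ b =>
      obtain ⟨N, hN⟩ := h4 b (Nat.lt_succ_self b)
      exact ⟨N, fun t ht => hN t ht⟩
  refine ncl_fin hU (b := b) (fun N => ?_) h5
  obtain ⟨N', hN'⟩ := h5
  obtain ⟨t, ht, hle⟩ := h3 (max N N')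
  exact ⟨t, by omega, le_antisymm hle (hN' t (by omega))⟩

end Pool.Agent.TH747.HT
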