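import Pool.Agent.TH747.HT.Main
import Pool.Agent.TH747.HT.Clus

/-! `Π⁰₃` facts are decided in the limit along idempotent ultrafilters by a computable function. -/

namespace Pool.Agent.TH747.HT

open Encodable Filter Pool.Agent.H645R2.HT Pool.Agent.Helper446 Pool.Agent.Helper446.RE

variable (W : ℕ → ℕ → Bool)

/-- The index of the instance `(b, c)` of the fact `z`. -/
def ix (z b c : ℕ) : ℕ := Nat.pair z.unpair.1 (Nat.pair z.unpair.2 (Nat.pair b c))

/-- The universal `Π⁰₃` fact: for all `b` there is `c` such that no stage enumerates. -/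
def Psi (z : ℕ) : Prop := ∀ b, ∃ c, ∀ s, W s (ix z b c) = false

/-- The current witness. -/
def cc (z b s : ℕ) : ℕ := lst (fun c => !(W s (ix z b c))) s

/-- The least `b` whose witness changes. -/
def yy (z t : ℕ) : ℕ := lst (fun b => decide (cc W z b t < cc W z b (t + 1))) t

variable {W}

theorem lst_mono {q q' : ℕ → Bool} {n n' : ℕ} (hn : n ≤ n') (h : ∀ i, q' i = true → q i = true) :
    lst q n ≤ lst q' n' := by
  rcases lst_spec q n with ⟨h1, h2, h3⟩ | ⟨h1, h2⟩
  · rcases lst_spec q' n' with ⟨h1', h2', h3'⟩ | ⟨h1', h2'⟩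
    · by_contra hc
      have := h3 (lst q' n') (by omega)
      rw [h _ h2'] at this
      cases this
    · omega
  · rcases lst_spec q' n' with ⟨h1', h2', h3'⟩ | ⟨h1', h2'⟩
    · by_contra hc
      have := h2 (lst q' n') (by omega)
      rw [h _ h2'] at this
      cases this
    · omega

theorem cc_mono (hW : Mon W) {z b s s' : ℕ} (h : s ≤ s') : cc W z b s ≤ cc W z b s' := by
  refine lst_mono h fun i hi => ?_
  rw [Bool.not_eq_true'] at hi ⊢
  by_contra hc
  rw [Bool.not_eq_false] at hc
  rw [hW _ _ _ h hc] at hi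
  cases hi

/-- The witness settles if there is one. -/
theorem cc_stop (hW : Mon W) {z b : ℕ} (h : ∃ c, ∀ s, W s (ix z b c) = false) :
    ∃ c N, ∀ s, N ≤ s → cc W z b s = c := by
  obtain ⟨c, hc⟩ := h
  -- bounded and monotone
  have h1 : ∀ s, cc W z b s ≤ c := by
    intro s
    rcases lst_spec (fun c => !(W s (ix z b c))) s with ⟨h1, h2, h3⟩ | ⟨h1, h2⟩
    · by_contra hcon
      have := h3 c (by unfold cc at hcon; omega)
      simp [hc s] at this
    · by_contra hcon
      have := h2 c (by unfold cc at hcon; omega)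
      simp [hc s] at this
  by_contra hcon
  push Not at hcon
  have h2 : ∀ k, ∃ s, k ≤ cc W z b s := by
    intro k
    induction k with
    | zero => exact ⟨0, Nat.zero_le _⟩
    | succ k ih =>
      obtain ⟨s, hs⟩ := ih
      obtain ⟨s', hs', hne⟩ := hcon (cc W z b s) s
      have := cc_mono hW (z := z) (b := b) hs'
      exact ⟨s', by omega⟩
  obtain ⟨s, hs⟩ := h2 (c + 1)
  have := h1 s
  omega

/-- The witness changes infinitely often if there is none. -/
theorem cc_go (hW : Mon W) {z b : ℕ} (h : ¬ ∃ c, ∀ s, W s (ix z b c) = false) (N : ℕ) :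
    ∃ t, N < t ∧ cc W z b t < cc W z b (t + 1) := by
  by_contra hcon
  push Not at hcon h
  have h1 : ∀ d, cc W z b (N + 1 + d) ≤ cc W z b (N + 1) := by
    intro d
    induction d with
    | zero => exact le_rfl
    | succ d ih => exact le_trans (hcon (N + 1 + d) (by omega)) ih
  -- all witnesses below get enumerated
  have h2 : ∀ k, ∃ s, ∀ c < k, W s (ix z b c) = true := by
    intro k
    induction k with
    | zero => exact ⟨0, fun c hc => absurd hc (Nat.not_lt_zero _)⟩
    | succ k ih =>
      obtain ⟨s, hs⟩ := ih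
      obtain ⟨s', hs'⟩ := h k
      rw [ne_eq, Bool.not_eq_false] at hs'
      refine ⟨max s s', fun c hc => ?_⟩
      rcases Nat.lt_succ_iff_lt_or_eq.1 hc with h3 | h3
      · exact hW _ _ _ (le_max_left _ _) (hs c h3)
      · rw [h3]; exact hW _ _ _ (le_max_right _ _) hs'
  obtain ⟨s, hs⟩ := h2 (cc W z b (N + 1) + 1)
  have h3 := h1 s
  have h4 : ∀ c < cc W z b (N + 1) + 1, W (N + 1 + s) (ix z b c) = true :=
    fun c hc => hW _ _ _ (by omega) (hs c hc)
  have h5 : cc W z b (N + 1) ≤ N + 1 := by
    unfold cc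
    rcases lst_spec (fun c => !(W (N + 1) (ix z b c))) (N + 1) with ⟨h1, _, _⟩ | ⟨h1, _⟩ <;> omega
  unfold cc at h3
  rcases lst_spec (fun c => !(W (N + 1 + s) (ix z b c))) (N + 1 + s) with ⟨h6, h7, _⟩ | ⟨h6, _⟩
  · have h8 := h4 (lst (fun c => !(W (N + 1 + s) (ix z b c))) (N + 1 + s)) (by unfold cc; omega)
    rw [h8] at h7
    cases h7
  · rw [h6] at h3
    change N + 1 + s ≤ cc W z b (N + 1) at h3
    have h8 : s = 0 := by omega
    subst h8
    have h9 := hs 0 (by omega)
    have h10 := hW _ _ _ (show 0 ≤ N + 1 from Nat.zero_le _) h9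
    have h11 : cc W z b (N + 1) = N + 1 := by omega
    -- `s = 0`: all witnesses below `N + 2` are enumerated at stage `0`
    obtain ⟨s2, hs2⟩ := h2 (N + 3)
    have h12 := h1 (s2 + 1)
    have h13 : N + 2 ≤ cc W z b (N + 1 + (s2 + 1)) := by
      unfold cc
      rcases lst_spec (fun c => !(W (N + 1 + (s2 + 1)) (ix z b c))) (N + 1 + (s2 + 1)) with
        ⟨h6, h7, _⟩ | ⟨h6, _⟩
      · by_contra hc
        have h14 := hW _ _ _ (show s2 ≤ N + 1 + (s2 + 1) by omega)
          (hs2 (lst (fun c => !(W (N + 1 + (s2 + 1)) (ix z b c))) (N + 1 + (s2 + 1))) (by omega))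
        rw [h14] at h7
        cases h7
      · omega
    omega

theorem Psi_iff (hW : Mon W) (z : ℕ) : Psi W z ↔ ∀ B, ∃ N, ∀ t, N < t → B ≤ yy W z t := by
  constructor
  · intro h
    have h1 : ∀ B, ∃ N, ∀ b < B, ∀ t, N < t → cc W z b t = cc W z b (t + 1) := by
      intro B
      induction B with
      | zero => exact ⟨0, fun b hb => absurd hb (Nat.not_lt_zero _)⟩
      | succ B ih =>
        obtain ⟨N, hN⟩ := ih
        obtain ⟨c, N', hN'⟩ := cc_stop hW (h B)
        refine ⟨max N N', fun b hb t ht => ?_⟩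
        rcases Nat.lt_succ_iff_lt_or_eq.1 hb with h3 | h3
        · exact hN b h3 t (by omega)
        · rw [h3, hN' t (by omega), hN' (t + 1) (by omega)]
    intro B
    obtain ⟨N, hN⟩ := h1 B
    refine ⟨max N B, fun t ht => ?_⟩
    unfold yy
    rcases lst_spec (fun b => decide (cc W z b t < cc W z b (t + 1))) t with ⟨h1, h2, _⟩ | ⟨h1, _⟩
    · by_contra hc
      rw [decide_eq_true_eq, ← hN _ (by omega) t (by omega)] at h2
      exact lt_irrefl _ h2
    · omega
  · intro h b
    by_contra hc
    obtain ⟨N, hN⟩ := h (b + 1)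
    obtain ⟨t, ht, ht'⟩ := cc_go hW hc (max N b)
    have h1 := hN t (by omega)
    have h2 := lst_lt_of (q := fun b => decide (cc W z b t < cc W z b (t + 1))) (n := t) (i := b)
      (by omega) (by simpa using ht')
    unfold yy at h1
    omega

variable (W) in
/-- The computable function. -/
def D3 (z l : ℕ) : Bool := decide (ncl (yy W z) l % 3 ≠ 1)

theorem limDec3 (hW : Mon W) : LimDec (D3 W) (Psi W) := by
  intro U hU z
  by_cases h : ∀ B, ∃ N, ∀ t, N < t → B ≤ yy W z t
  · have h1 := (Psi_iff hW z).2 h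
    filter_upwards [ncl_inf hU h] with l hl
    simp [D3, hl, h1]
  · have h1 : ¬ Psi W z := fun h' => h ((Psi_iff hW z).1 h')
    filter_upwards [ncl_fin' hU h] with l hl
    simp [D3, hl, h1]

section comp

variable {α : Type*} [Primcodable α]

theorem c_ix {f g h : α → ℕ} (hf : Computable f) (hg : Computable g) (hh : Computable h) :
    Computable fun a => ix (f a) (g a) (h a) := by
  unfold ix
  fun_prop

theorem c_cc (hW : Computable fun q : ℕ × ℕ => W q.1 q.2) {f g h : α → ℕ} (hf : Computable f)
    (hg : Computable g) (hh : Computable h) : Computable fun a => cc W (f a) (g a) (h a) := by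
  unfold cc
  refine c_lst (q := fun (a : α) c => !(W (h a) (ix (f a) (g a) c))) ?_ hh
  have h1 : Computable fun p : α × ℕ => ix (f p.1) (g p.1) p.2 :=
    c_ix (by fun_prop) (by fun_prop) (by fun_prop)
  exact cnot (hW.comp (g := fun p : α × ℕ => (h p.1, ix (f p.1) (g p.1) p.2)) (by fun_prop))

theorem c_yy (hW : Computable fun q : ℕ × ℕ => W q.1 q.2) {f g : α → ℕ} (hf : Computable f)
    (hg : Computable g) : Computable fun a => yy W (f a) (g a) := by
  unfold yy
  refine c_lst (q := fun (a : α) b => decide (cc W (f a) b (g a) < cc W (f a) b (g a + 1))) ?_ hg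
  refine c_dlt (c_cc hW ?_ ?_ ?_) (c_cc hW ?_ ?_ ?_) <;> fun_prop

theorem c_mn {y : α → ℕ → ℕ} (hy : Computable fun p : α × ℕ => y p.1 p.2) {f g : α → ℕ}
    (hf : Computable f) (hg : Computable g) : Computable fun a => mn (y a) (f a) (g a) := by
  unfold mn
  refine c_lst (q := fun (a : α) v => exB (fun t => decide (f a < t) && decide (y a t = v))
    (g a + 1)) ?_ (hy.comp (g := fun a => (a, g a)) (by fun_prop))
  refine computable_exB (α := α × ℕ) (q := fun x t => decide (f x.1 < t) &&
    decide (y x.1 t = x.2)) ?_ (by fun_prop)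
  unfold Computable₂
  refine cand (c_dlt (by fun_prop) (by fun_prop)) (c_deq ?_ (by fun_prop))
  exact hy.comp (g := fun x : (α × ℕ) × ℕ => (x.1.1, x.2)) (by fun_prop)

/-- One step of the computation of the word. -/
theorem gl_foldl (m : ℕ → ℕ → ℕ) (l : List ℕ) : ∀ (a : ℕ) (w : List ℕ),
    (l.foldl (fun (s : ℕ × List ℕ) x => (x, s.2 ++ [m s.1 x])) (a, w)).2 = w ++ gl m (a :: l) := by
  induction l with
  | nil => intro a w; simp [gl]
  | cons b l ih =>
    intro a w
    rw [List.foldl_cons, ih]
    simp [gl]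

theorem c_wd {y : α → ℕ → ℕ} (hy : Computable fun p : α × ℕ => y p.1 p.2) {f : α → ℕ}
    (hf : Computable f) : Computable fun a => wd (y a) (f a) := by
  have h : Computable fun a => ((L (f a)).tail.foldl (fun (s : ℕ × List ℕ) x =>
      (x, s.2 ++ [mn (y a) s.1 x])) (la (f a), ([] : List ℕ))).2 := by
    refine Computable.snd.comp (RE.list_foldl (f := fun a => (L (f a)).tail)
      (g := fun a => (la (f a), ([] : List ℕ)))
      (h := fun (a : α) (p : (ℕ × List ℕ) × ℕ) => (p.2, p.1.2 ++ [mn (y a) p.1.1 p.2])) ?_ ?_ ?_)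
    · exact Primrec.list_tail.to_comp.comp (by fun_prop)
    · fun_prop
    · unfold Computable₂
      have h1 : Computable fun x : α × ((ℕ × List ℕ) × ℕ) => mn (y x.1) x.2.1.1 x.2.2 :=
        c_mn (y := fun (x : α × ((ℕ × List ℕ) × ℕ)) t => y x.1 t)
          (hy.comp (g := fun p : (α × ((ℕ × List ℕ) × ℕ)) × ℕ => (p.1.1, p.2)) (by fun_prop))
          (by fun_prop) (by fun_prop)
      fun_prop
  refine h.of_eq fun a => ?_
  rw [gl_foldl]
  unfold wd
  cases hL : L (f a) with
  | nil => simp [gl]
  | cons b l =>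
    have : la (f a) = b := by unfold la; rw [hL]; rfl
    rw [this]
    simp

theorem cl_foldl (w : List ℕ) : ∀ (n : ℕ) (B : List ℕ),
    (w.foldl (fun (s : ℕ × List ℕ) x => ((bif decide (x ∈ s.2) then s.1 else s.1 + 1),
      x :: s.2.filter (fun z => decide (z < x)))) (n, B)).1 = n + cl B w := by
  induction w with
  | nil => intro n B; simp [cl]
  | cons x w ih =>
    intro n B
    rw [List.foldl_cons, ih]
    simp only [cl]
    by_cases hx : x ∈ B
    · simp [hx]
    · simp [hx]; omega

theorem c_filter {f : α → List ℕ} {g : α → ℕ} (hf : Computable f) (hg : Computable g) :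
    Computable fun a => (f a).filter (fun z => decide (z < g a)) := by
  have h : Computable fun a => (f a).foldl (fun (s : List ℕ) x =>
      bif decide (x < g a) then s ++ [x] else s) [] := by
    refine RE.list_foldl (h := fun (a : α) (p : List ℕ × ℕ) =>
      bif decide (p.2 < g a) then p.1 ++ [p.2] else p.1) hf (Computable.const _) ?_
    unfold Computable₂
    exact ccond (c_dlt (by fun_prop) (by fun_prop)) (by fun_prop) (by fun_prop)
  refine h.of_eq fun a => ?_
  generalize f a = l
  have key : ∀ (l s : List ℕ), l.foldl (fun (s : List ℕ) x =>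
      bif decide (x < g a) then s ++ [x] else s) s = s ++ l.filter (fun z => decide (z < g a)) := by
    intro l
    induction l with
    | nil => intro s; simp
    | cons x l ih =>
      intro s
      rw [List.foldl_cons, ih]
      by_cases hx : x < g a
      · simp [hx]
      · simp [hx]
  simpa using key l []

theorem c_cl {f : α → List ℕ} (hf : Computable f) : Computable fun a => cl [] (f a) := by
  have h : Computable fun a => ((f a).foldl (fun (s : ℕ × List ℕ) x =>
      ((bif decide (x ∈ s.2) then s.1 else s.1 + 1),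
      x :: s.2.filter (fun z => decide (z < x)))) (0, ([] : List ℕ))).1 := by
    refine Computable.fst.comp (RE.list_foldl (g := fun _ => (0, ([] : List ℕ)))
      (h := fun (_ : α) (p : (ℕ × List ℕ) × ℕ) => ((bif decide (p.2 ∈ p.1.2) then p.1.1 else
        p.1.1 + 1), p.2 :: p.1.2.filter (fun z => decide (z < p.2)))) hf (Computable.const _) ?_)
    unfold Computable₂
    have h1 : Computable fun x : α × ((ℕ × List ℕ) × ℕ) =>
        x.2.1.2.filter (fun z => decide (z < x.2.2)) := c_filter (by fun_prop) (by fun_prop)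
    have h2 : Computable fun x : α × ((ℕ × List ℕ) × ℕ) => decide (x.2.2 ∈ x.2.1.2) :=
      c_mem (by fun_prop) (by fun_prop)
    fun_prop
  refine h.of_eq fun a => ?_
  rw [cl_foldl]
  omega

theorem c_D3 (hW : Computable fun q : ℕ × ℕ => W q.1 q.2) :
    Computable fun x : ℕ × ℕ => D3 W x.1 x.2 := by
  have h1 : Computable fun x : ℕ × ℕ => ncl (yy W x.1) x.2 := by
    unfold ncl
    exact c_cl (c_wd (y := fun (x : ℕ × ℕ) t => yy W x.1 t) (c_yy hW (by fun_prop) (by fun_prop))
      (by fun_prop))
  have h2 : Computable fun x : ℕ × ℕ => !(decide (ncl (yy W x.1) x.2 % 3 = 1)) :=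
    cnot (c_deq (c_mod h1 (by fun_prop)) (by fun_prop))
  refine h2.of_eq fun x => ?_
  unfold D3
  rw [decide_not]

end comp

end Pool.Agent.TH747.HT
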