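import Pool.Agent.TH747.HT.Ultra
import Pool.Agent.TH747.HT.Rec
import Pool.Agent.H645R2.HT.PartB

/-! The diagonal colouring: given limit decisions `D` of the facts `ψ`, a computable colouring with
two colours no homogeneous set of which is a projection of `ψ`. -/

namespace Pool.Agent.TH747.HT

open Encodable Filter Pool.Agent.H645R2.HT Pool.Agent.Helper446 Pool.Agent.Helper446.RE

/-- The list coded by `m`. -/
def dl (m : ℕ) : List ℕ := (decode (α := List ℕ) m).getD []

theorem c_dl : Computable dl := by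
  unfold dl
  exact Primrec.option_getD.to_comp.comp (by fun_prop) (by fun_prop)

/-- The element number `i` of the list coded by `m`. -/
def el (m i : ℕ) : ℕ := ((dl m)[i]?).getD 0

theorem c_el {α : Type*} [Primcodable α] {f g : α → ℕ} (hf : Computable f)
    (hg : Computable g) : Computable fun a => el (f a) (g a) := by
  unfold el
  have h1 : Computable fun a => dl (f a) := c_dl.comp hf
  fun_prop

/-- Components of a candidate. -/
def gh (p : ℕ) : ℕ := p.unpair.1
/-- Components of a candidate. -/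
def gk (p : ℕ) : ℕ := p.unpair.2.unpair.1
/-- Components of a candidate. -/
def gw (p : ℕ) : ℕ := p.unpair.2.unpair.2
/-- First sum of a candidate. -/
def hh (p : ℕ) : ℕ := (L (gh p)).sum
/-- Second sum of a candidate. -/
def kk (p : ℕ) : ℕ := (L (gk p)).sum

/-- The set coded by `g` seems to be contained in the `e`-th set. -/
def av (D : ℕ → ℕ → Bool) (e l g w : ℕ) : Bool :=
  allB (fun x => decide (dg x g = 0) || D (Nat.pair e (Nat.pair x (el w x))) l) g

/-- The test for the candidate `p`. -/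
def tst (D : ℕ → ℕ → Bool) (e l : ℕ) (T : List ℕ) (p : ℕ) : Bool :=
  av D e l (gh p) (gw p) && (av D e l (gk p) (gw p) && (decide (mu (gh p) < la (gk p)) &&
    (decide (0 < hh p) && (decide (mu (hh p) < la (kk p)) && (decide (mu (kk p) < la l) &&
      !(decide (la (hh p) ∈ T)))))))

variable {D : ℕ → ℕ → Bool}

theorem av_iff {e l g w : ℕ} : av D e l g w = true ↔
    ∀ x ∈ L g, D (Nat.pair e (Nat.pair x (el w x))) l = true := by
  unfold av
  rw [allB_iff]
  constructor
  · intro h x hx
    have h1 := mem_L.1 hx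
    have h2 := h x (dg_lt h1)
    simpa [h1] using h2
  · intro h x _
    by_cases h1 : dg x g = 0
    · simp [h1]
    · simp [h x (mem_L.2 h1)]

theorem tst_iff {e l : ℕ} {T : List ℕ} {p : ℕ} : tst D e l T p = true ↔
    (∀ x ∈ L (gh p), D (Nat.pair e (Nat.pair x (el (gw p) x))) l = true) ∧
    (∀ x ∈ L (gk p), D (Nat.pair e (Nat.pair x (el (gw p) x))) l = true) ∧
    mu (gh p) < la (gk p) ∧ 0 < hh p ∧ mu (hh p) < la (kk p) ∧ mu (kk p) < la l ∧
      la (hh p) ∉ T := by
  unfold tst
  simp only [Bool.and_eq_true, av_iff, decide_eq_true_eq, Bool.not_eq_true',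
    decide_eq_false_iff_not]

/-- The lowest positions taken by the requirements `< e`. -/
def TT (D : ℕ → ℕ → Bool) (l : ℕ) : ℕ → List ℕ
  | 0 => []
  | e + 1 => bif decide (lst (tst D e l (TT D l e)) (la l) < la l) then
      la (hh (lst (tst D e l (TT D l e)) (la l))) :: TT D l e else TT D l e

/-- The candidate used by requirement `e`. -/
def pick (D : ℕ → ℕ → Bool) (l e : ℕ) : ℕ := lst (tst D e l (TT D l e)) (la l)

theorem TT_succ {l e : ℕ} : TT D l (e + 1) = bif decide (pick D l e < la l) then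
    la (hh (pick D l e)) :: TT D l e else TT D l e := rfl

theorem TT_length {l e : ℕ} : (TT D l e).length ≤ e := by
  induction e with
  | zero => simp [TT]
  | succ e ih =>
    rw [TT_succ]
    cases decide (pick D l e < la l)
    · simp only [cond_false]; omega
    · simp only [cond_true, List.length_cons]; omega

theorem TT_mono {l e x : ℕ} (h : x ∈ TT D l e) : x ∈ TT D l (e + 1) := by
  rw [TT_succ]
  cases decide (pick D l e < la l)
  · exact h
  · exact List.mem_cons_of_mem _ h

theorem TT_mono' {l e e' x : ℕ} (hee : e ≤ e') (h : x ∈ TT D l e) : x ∈ TT D l e' := by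
  induction hee with
  | refl => exact h
  | step _ ih => exact TT_mono ih

theorem mem_TT_succ {l e : ℕ} (h : pick D l e < la l) :
    la (hh (pick D l e)) ∈ TT D l (e + 1) := by
  rw [TT_succ, decide_eq_true h]
  simp

theorem pick_tst {l e : ℕ} (h : pick D l e < la l) :
    tst D e l (TT D l e) (pick D l e) = true := lst_of_lt h

theorem pick_ne {l e e' : ℕ} (hlt : e < e') (h : pick D l e < la l)
    (h' : pick D l e' < la l) : la (hh (pick D l e)) ≠ la (hh (pick D l e')) := by
  intro hc
  have h1 := TT_mono' (show e + 1 ≤ e' from hlt) (mem_TT_succ h)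
  have h2 := (tst_iff.1 (pick_tst h')).2.2.2.2.2.2
  rw [hc] at h1
  exact h2 h1

theorem pick_inj {l e e' : ℕ} (h : pick D l e < la l) (h' : pick D l e' < la l)
    (he : la (hh (pick D l e)) = la (hh (pick D l e'))) : e = e' := by
  rcases Nat.lt_trichotomy e e' with h1 | h1 | h1
  · exact absurd he (pick_ne h1 h h')
  · exact h1
  · exact absurd he.symm (pick_ne h1 h' h)

/-- The requirement acting at `(x, u, l)`. -/
def sel (D : ℕ → ℕ → Bool) (x u l : ℕ) : ℕ :=
  lst (fun e => decide (pick D l e < la l) && (decide (la (hh (pick D l e)) = x) &&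
    decide (mu (kk (pick D l e)) = u))) (la l)

/-- The first sum used at `(x, u, l)`. -/
def sh (D : ℕ → ℕ → Bool) (x u l : ℕ) : ℕ := hh (pick D l (sel D x u l)) + l

/-- The second sum used at `(x, u, l)`. -/
def sk (D : ℕ → ℕ → Bool) (x u l : ℕ) : ℕ :=
  hh (pick D l (sel D x u l)) + (kk (pick D l (sel D x u l)) + l)

/-- The value at `(x, u, l)`. -/
def GG (D : ℕ → ℕ → Bool) (cc : ℕ → ℕ → Bool) (x u l : ℕ) : Bool :=
  decide (sel D x u l < la l) && !(xor (cc x (sh D x u l)) (cc x (sk D x u l)))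

/-- Position `v` of `n` counts. -/
def act (v n : ℕ) : Bool := decide (dg v n ≠ 0) && decide (0 < n % 3 ^ v)

/-- The colour of `n`, restricted to the positions below `v`. -/
def CC (D : ℕ → ℕ → Bool) : ℕ → ℕ → ℕ → Bool
  | 0, _, _ => false
  | v + 1, x, n => xor (CC D v x n) (act v n &&
      GG D (CC D v) x (mu (n % 3 ^ v)) (n - n % 3 ^ v))

theorem CC_succ {v x n : ℕ} : CC D (v + 1) x n = xor (CC D v x n) (act v n &&
      GG D (CC D v) x (mu (n % 3 ^ v)) (n - n % 3 ^ v)) := rfl

theorem CC_stable {x n V : ℕ} (h : n ≤ V) : CC D V x n = CC D n x n := by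
  induction h with
  | refl => rfl
  | @step m hm ih =>
    rw [CC_succ, ih]
    have h1 : dg m n = 0 := by
      by_contra hc
      have := dg_lt hc
      have h2 : n ≤ m := hm
      omega
    simp [act, h1]

/-- Decomposition of `w + l`. -/
theorem add_mod_la {w l : ℕ} (hl : 0 < l) (h : Sep w l) : (w + l) % 3 ^ la l = w := by
  unfold Pool.Agent.H645R2.HT.Sep at h
  have h1 : 3 ^ la l ∣ l := dvd_of_dg fun i hi => dg_of_lt_la hi
  have h2 : w < 3 ^ la l := lt_of_dg fun i hi => dg_of_mu_lt (by omega)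
  obtain ⟨q, hq⟩ := h1
  calc (w + l) % 3 ^ la l = (w + 3 ^ la l * q) % 3 ^ la l := by rw [← hq]
    _ = w := by rw [Nat.add_mul_mod_self_left, Nat.mod_eq_of_lt h2]

theorem dg_mod {i v n : ℕ} (h : i < v) : dg i (n % 3 ^ v) = dg i n := by
  have h1 := dg_add_low (m := n % 3 ^ v) (q := n / 3 ^ v) h
  rw [Nat.mod_add_div] at h1
  exact h1.symm

theorem dg_mod_high {i v n : ℕ} (h : v ≤ i) : dg i (n % 3 ^ v) = 0 := by
  unfold dg
  have h1 : n % 3 ^ v < 3 ^ v := Nat.mod_lt _ (by positivity)
  have h2 : 3 ^ v ≤ 3 ^ i := Nat.pow_le_pow_right (by norm_num) h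
  rw [Nat.div_eq_of_lt (by omega)]

theorem mod_pos {v l : ℕ} (hl : 0 < l) (hv : la l < v) : 0 < l % 3 ^ v := by
  rw [Nat.pos_iff_ne_zero]
  intro hc
  have h1 : dg (la l) (l % 3 ^ v) ≠ 0 := by
    rw [dg_mod hv]
    exact mem_L.1 (la_mem hl)
  rw [hc] at h1
  exact h1 (by simp [dg])

theorem la_mod {v l : ℕ} (hl : 0 < l) (hv : la l < v) : la (l % 3 ^ v) = la l := by
  apply le_antisymm
  · apply la_le
    rw [mem_L, dg_mod hv]
    exact mem_L.1 (la_mem hl)
  · by_contra hc
    push Not at hc
    have h1 : dg (la (l % 3 ^ v)) (l % 3 ^ v) ≠ 0 := mem_L.1 (la_mem (mod_pos hl hv))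
    rw [dg_mod (by omega)] at h1
    exact h1 (dg_of_lt_la hc)

theorem add_mod_high {w l v : ℕ} (hl : 0 < l) (h : Sep w l) (hv : la l < v) :
    (w + l) % 3 ^ v = w + l % 3 ^ v := by
  unfold Pool.Agent.H645R2.HT.Sep at h
  have h1 : 3 ^ la l ∣ l := dvd_of_dg fun i hi => dg_of_lt_la hi
  have h2 : w < 3 ^ la l := lt_of_dg fun i hi => dg_of_mu_lt (by omega)
  have h3 : 3 ^ la l ∣ 3 ^ v := Nat.pow_dvd_pow 3 hv.le
  have h4 : 3 ^ la l ∣ l % 3 ^ v := (Nat.dvd_mod_iff h3).2 h1
  have h5 : l % 3 ^ v < 3 ^ v := Nat.mod_lt _ (by positivity)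
  obtain ⟨a, ha⟩ := h3
  obtain ⟨b, hb⟩ := h4
  have h6 : b < a := by
    rw [hb, ha] at h5
    exact lt_of_mul_lt_mul_left h5 (by positivity)
  have h7 : w + l % 3 ^ v < 3 ^ v := by
    rw [hb, ha]
    have : 3 ^ la l * (b + 1) ≤ 3 ^ la l * a := Nat.mul_le_mul_left _ h6
    rw [mul_add, mul_one] at this
    omega
  conv_lhs => rw [← Nat.mod_add_div l (3 ^ v), ← add_assoc, Nat.add_mul_mod_self_left]
  exact Nat.mod_eq_of_lt h7

theorem term_high {w l v x : ℕ} (hl : 0 < l) (h : Sep w l) (hv : la l < v)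
    (cc : ℕ → ℕ → Bool) :
    (act v (w + l) && GG D cc x (mu ((w + l) % 3 ^ v)) ((w + l) - (w + l) % 3 ^ v)) =
    (act v l && GG D cc x (mu (l % 3 ^ v)) (l - l % 3 ^ v)) := by
  have h1 := mod_pos hl hv
  have h2 := la_mod hl hv
  have h3 : Sep w (l % 3 ^ v) := by
    unfold Pool.Agent.H645R2.HT.Sep at *
    omega
  rw [add_mod_high hl h hv, mu_add h1 h3]
  have h4 : w + l - (w + l % 3 ^ v) = l - l % 3 ^ v := by omega
  rw [h4]
  have h5 : act v (w + l) = act v l := by
    unfold act
    rw [add_mod_high hl h hv]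
    have h6 : dg v (w + l) = dg v l := by
      unfold Pool.Agent.H645R2.HT.Sep at h
      have h7 : 3 ^ la l ∣ l := dvd_of_dg fun i hi => dg_of_lt_la hi
      have h8 : w < 3 ^ la l := lt_of_dg fun i hi => dg_of_mu_lt (by omega)
      obtain ⟨q, hq⟩ := h7
      have h9 := dg_add_high (q := q) h8 hv.le
      rw [← hq] at h9
      exact h9
    rw [h6, decide_eq_true h1, decide_eq_true (show 0 < w + l % 3 ^ v by omega)]
  rw [h5]

theorem CC_cong {w w' l x V : ℕ} (hl : 0 < l) (h : Sep w l) (h' : Sep w' l)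
    (hV : la l + 1 ≤ V) :
    xor (CC D V x (w + l)) (CC D V x (w' + l)) =
      xor (CC D (la l + 1) x (w + l)) (CC D (la l + 1) x (w' + l)) := by
  induction hV with
  | refl => rfl
  | @step v hv ih =>
    rw [CC_succ, CC_succ, term_high hl h hv, term_high hl h' hv, ← ih]
    generalize (act v l && GG D (CC D v) x (mu (l % 3 ^ v)) (l - l % 3 ^ v)) = a
    generalize CC D v x (w + l) = b
    generalize CC D v x (w' + l) = c
    cases a <;> cases b <;> cases c <;> rfl

theorem CC_at {w l x : ℕ} (hw : 0 < w) (hl : 0 < l) (h : Sep w l) :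
    CC D (la l + 1) x (w + l) = xor (CC D (la l) x (w + l)) (GG D (CC D (la l)) x (mu w) l) := by
  rw [CC_succ, add_mod_la hl h]
  have h1 : w + l - w = l := by omega
  rw [h1]
  have h2 : act (la l) (w + l) = true := by
    unfold act
    rw [add_mod_la hl h]
    have h6 : dg (la l) (w + l) = dg (la l) l := by
      unfold Pool.Agent.H645R2.HT.Sep at h
      have h7 : 3 ^ la l ∣ l := dvd_of_dg fun i hi => dg_of_lt_la hi
      have h8 : w < 3 ^ la l := lt_of_dg fun i hi => dg_of_mu_lt (by omega)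
      obtain ⟨q, hq⟩ := h7
      have h9 := dg_add_high (q := q) h8 le_rfl
      rw [← hq] at h9
      exact h9
    rw [h6, decide_eq_true hw, decide_eq_true (mem_L.1 (la_mem hl))]
    rfl
  rw [h2, Bool.true_and]

/-- The colouring. -/
def col (D : ℕ → ℕ → Bool) (n : ℕ) : Bool := CC D n (la n) n

/-- A picked candidate gives two sums of different colours. -/
theorem col_ne {l e : ℕ} (hl : 0 < l) (he : e < la l) (h : pick D l e < la l) :
    col D (hh (pick D l e) + l) ≠ col D (hh (pick D l e) + (kk (pick D l e) + l)) := by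
  obtain ⟨-, -, -, t1, t2, t3, -⟩ := tst_iff.1 (pick_tst h)
  generalize hp : pick D l e = p at *
  have hk0 : 0 < kk p := by
    rw [Nat.pos_iff_ne_zero]
    intro hc
    rw [hc] at t2
    have : la 0 = 0 := by simp [la, L]
    omega
  have hmk := la_le_mu hk0
  have s1 : Sep (hh p) (kk p) := t2
  have s2 : Sep (kk p) l := t3
  have s3 : Sep (hh p) l := sep_trans hk0 s1 s2
  have s4 : Sep (hh p + kk p) l := sep_add_left hk0 s1 s2
  have s5 : Sep (hh p) (kk p + l) := sep_add_right hk0 s1 s2
  have e1 : la (hh p + l) = la (hh p) := la_add t1 s3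
  have e2 : la (hh p + (kk p + l)) = la (hh p) := la_add t1 s5
  have m1 : mu (hh p + kk p) = mu (kk p) := mu_add hk0 s1
  intro hc
  unfold col at hc
  rw [e1, e2] at hc
  have c1 : CC D (hh p + (kk p + l)) (la (hh p)) (hh p + l) =
      CC D (hh p + l) (la (hh p)) (hh p + l) := CC_stable (by omega)
  rw [← c1, ← add_assoc] at hc
  have hlal : la l < l := dg_lt (mem_L.1 (la_mem hl))
  have c2 := CC_cong (D := D) (x := la (hh p)) (V := hh p + kk p + l) hl s3 s4 (by omega)
  rw [hc, CC_at t1 hl s3, CC_at (by omega) hl s4, m1] at c2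
  -- selection
  have hsel : ∀ u, sel D (la (hh p)) u l < la l → u = mu (kk p) ∧ sel D (la (hh p)) u l = e := by
    intro u hu
    have h1 := lst_of_lt hu
    rw [Bool.and_eq_true, Bool.and_eq_true, decide_eq_true_eq, decide_eq_true_eq,
      decide_eq_true_eq] at h1
    obtain ⟨h2, h3, h4⟩ := h1
    have h5 := pick_inj (e' := e) h2 (by rw [hp]; exact h) (by rw [hp]; exact h3)
    rw [h5, hp] at h4
    exact ⟨h4.symm, h5⟩
  have hsel2 : sel D (la (hh p)) (mu (kk p)) l < la l := by
    refine (lst_lt_of (i := e) he ?_).2.1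
    rw [Bool.and_eq_true, Bool.and_eq_true, decide_eq_true_eq, decide_eq_true_eq,
      decide_eq_true_eq, hp]
    exact ⟨h, rfl, rfl⟩
  have g1 : GG D (CC D (la l)) (la (hh p)) (mu (hh p)) l = false := by
    unfold GG
    rw [Bool.and_eq_false_iff]
    left
    rw [decide_eq_false_iff_not]
    intro h1
    have := (hsel _ h1).1
    omega
  have g2 : GG D (CC D (la l)) (la (hh p)) (mu (kk p)) l =
      !(xor (CC D (la l) (la (hh p)) (hh p + l))
        (CC D (la l) (la (hh p)) (hh p + kk p + l))) := by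
    unfold GG sh sk
    rw [(hsel _ hsel2).2, hp, decide_eq_true he, Bool.true_and, add_assoc]
  rw [g1, g2] at c2
  revert c2
  generalize CC D (la l) (la (hh p)) (hh p + l) = a
  generalize CC D (la l) (la (hh p)) (hh p + kk p + l) = b
  generalize CC D (hh p + kk p + l) (la (hh p)) (hh p + kk p + l) = c
  cases a <;> cases b <;> cases c <;> decide

section comp

variable {α : Type*} [Primcodable α]

theorem c_sum {f : α → List ℕ} (hf : Computable f) : Computable fun a => (f a).sum := by
  have h : Computable fun a => (f a).foldl (fun s x => s + x) 0 := by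
    refine RE.list_foldl (h := fun (_ : α) (p : ℕ × ℕ) => p.1 + p.2) hf (Computable.const _) ?_
    unfold Computable₂
    fun_prop
  refine h.of_eq fun a => ?_
  rw [List.sum_eq_foldl]

theorem c_hh {f : α → ℕ} (hf : Computable f) : Computable fun a => hh (f a) := by
  unfold hh gh
  exact c_sum (by fun_prop)

theorem c_kk {f : α → ℕ} (hf : Computable f) : Computable fun a => kk (f a) := by
  unfold kk gk
  exact c_sum (by fun_prop)

theorem c_av (hD : Computable fun x : ℕ × ℕ => D x.1 x.2) {e l g w : α → ℕ}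
    (he : Computable e) (hl : Computable l) (hg : Computable g) (hw : Computable w) :
    Computable fun a => av D (e a) (l a) (g a) (w a) := by
  unfold av
  refine computable_allB (q := fun (a : α) x => decide (dg x (g a) = 0) ||
    D (Nat.pair (e a) (Nat.pair x (el (w a) x))) (l a)) ?_ hg
  unfold Computable₂
  have h1 : Computable fun x : α × ℕ => el (w x.1) x.2 :=
    c_el (hw.comp Computable.fst) Computable.snd
  have h2 : Computable fun x : α × ℕ =>
      D (Nat.pair (e x.1) (Nat.pair x.2 (el (w x.1) x.2))) (l x.1) :=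
    hD.comp (g := fun x : α × ℕ => (Nat.pair (e x.1) (Nat.pair x.2 (el (w x.1) x.2)), l x.1))
      (by fun_prop)
  have h3 : Computable fun x : α × ℕ => decide (dg x.2 (g x.1) = 0) :=
    c_deq (f := fun x : α × ℕ => dg x.2 (g x.1)) (g := fun _ => 0) (by fun_prop) (by fun_prop)
  fun_prop

theorem c_tst (hD : Computable fun x : ℕ × ℕ => D x.1 x.2) {e l : α → ℕ} {T : α → List ℕ}
    {p : α → ℕ} (he : Computable e) (hl : Computable l) (hT : Computable T)
    (hp : Computable p) : Computable fun a => tst D (e a) (l a) (T a) (p a) := by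
  have h1 : Computable fun a => hh (p a) := c_hh hp
  have h2 : Computable fun a => kk (p a) := c_kk hp
  unfold tst
  refine cand (c_av hD he hl (by unfold gh; fun_prop) (by unfold gw; fun_prop)) (cand
    (c_av hD he hl (by unfold gk; fun_prop) (by unfold gw; fun_prop)) (cand
    (c_dlt (by unfold gh; fun_prop) (by unfold gk; fun_prop)) (cand
    (c_dlt (by fun_prop) (by fun_prop)) (cand
    (c_dlt (by fun_prop) (by fun_prop)) (cand (c_dlt (by fun_prop) (by fun_prop)) (cnot
    (c_mem (by fun_prop) hT)))))))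

theorem c_TT (hD : Computable fun x : ℕ × ℕ => D x.1 x.2) {l e : α → ℕ} (hl : Computable l)
    (he : Computable e) : Computable fun a => TT D (l a) (e a) := by
  have h1 : Computable fun x : α × (ℕ × List ℕ) =>
      lst (tst D x.2.1 (l x.1) x.2.2) (la (l x.1)) := by
    refine c_lst (q := fun (x : α × (ℕ × List ℕ)) c => tst D x.2.1 (l x.1) x.2.2 c) ?_
      (by fun_prop)
    exact c_tst hD (by fun_prop) (by fun_prop) (by fun_prop) (by fun_prop)
  have h2 : Computable fun x : α × (ℕ × List ℕ) =>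
      hh (lst (tst D x.2.1 (l x.1) x.2.2) (la (l x.1))) := c_hh h1
  have h := Computable.nat_rec (f := e) (g := fun _ : α => ([] : List ℕ))
    (h := fun (a : α) (y : ℕ × List ℕ) =>
      bif decide (lst (tst D y.1 (l a) y.2) (la (l a)) < la (l a)) then
      la (hh (lst (tst D y.1 (l a) y.2) (la (l a)))) :: y.2 else y.2) he (Computable.const _)
    (show Computable fun x : α × (ℕ × List ℕ) =>
      bif decide (lst (tst D x.2.1 (l x.1) x.2.2) (la (l x.1)) < la (l x.1)) then
      la (hh (lst (tst D x.2.1 (l x.1) x.2.2) (la (l x.1)))) :: x.2.2 else x.2.2 from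
      ccond (c_dlt h1 (by fun_prop)) (by fun_prop) (by fun_prop))
  refine h.of_eq fun a => ?_
  generalize e a = n
  induction n with
  | zero => rfl
  | succ n ih => simp only [TT]; rw [← ih]

theorem c_pick (hD : Computable fun x : ℕ × ℕ => D x.1 x.2) {l e : α → ℕ} (hl : Computable l)
    (he : Computable e) : Computable fun a => pick D (l a) (e a) := by
  unfold pick
  refine c_lst (q := fun (a : α) c => tst D (e a) (l a) (TT D (l a) (e a)) c) ?_ (by fun_prop)
  refine c_tst hD (by fun_prop) (by fun_prop) ?_ (by fun_prop)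
  exact (c_TT hD hl he).comp Computable.fst

theorem c_sel (hD : Computable fun x : ℕ × ℕ => D x.1 x.2) {x u l : α → ℕ} (hx : Computable x)
    (hu : Computable u) (hl : Computable l) : Computable fun a => sel D (x a) (u a) (l a) := by
  unfold sel
  refine c_lst (q := fun (a : α) e => decide (pick D (l a) e < la (l a)) &&
    (decide (la (hh (pick D (l a) e)) = x a) && decide (mu (kk (pick D (l a) e)) = u a))) ?_
    (by fun_prop)
  have h1 : Computable fun y : α × ℕ => pick D (l y.1) y.2 :=
    c_pick hD (hl.comp Computable.fst) Computable.snd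
  have h2 := c_hh h1
  have h3 := c_kk h1
  exact cand (c_dlt (by fun_prop) (by fun_prop)) (cand (c_deq (by fun_prop) (by fun_prop))
    (c_deq (by fun_prop) (by fun_prop)))

end comp

theorem c_pow3 {α : Type*} [Primcodable α] {f : α → ℕ} (hf : Computable f) :
    Computable fun a => 3 ^ f a := pr_pow3.to_comp.comp hf

theorem c_mod {α : Type*} [Primcodable α] {f g : α → ℕ} (hf : Computable f)
    (hg : Computable g) : Computable fun a => f a % g a :=
  (Primrec.nat_mod.to_comp).comp hf hg

theorem c_col (hD : Computable fun x : ℕ × ℕ => D x.1 x.2) : Computable (col D) := by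
  have hm : Computable fun y : ℕ × ℕ => y.2.unpair.2 % 3 ^ y.1 :=
    c_mod (by fun_prop) (c_pow3 (by fun_prop))
  have htop : Computable fun y : ℕ × ℕ => y.2.unpair.2 - y.2.unpair.2 % 3 ^ y.1 := by fun_prop
  have hsel : Computable fun y : ℕ × ℕ => sel D y.2.unpair.1 (mu (y.2.unpair.2 % 3 ^ y.1))
      (y.2.unpair.2 - y.2.unpair.2 % 3 ^ y.1) :=
    c_sel hD (by fun_prop) (by fun_prop) htop
  have hpick := c_pick hD htop hsel
  have hhh := c_hh hpick
  have hkk := c_kk hpick
  have key := comp_rec3 (F := fun y : (ℕ × ℕ) × (Bool × Bool × Bool) =>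
      xor y.2.1 (act y.1.1 y.1.2.unpair.2 &&
        (decide (sel D y.1.2.unpair.1 (mu (y.1.2.unpair.2 % 3 ^ y.1.1))
          (y.1.2.unpair.2 - y.1.2.unpair.2 % 3 ^ y.1.1) <
          la (y.1.2.unpair.2 - y.1.2.unpair.2 % 3 ^ y.1.1)) && !(xor y.2.2.1 y.2.2.2))))
    (p := fun y => Nat.pair y.2.unpair.1 (sh D y.2.unpair.1 (mu (y.2.unpair.2 % 3 ^ y.1))
      (y.2.unpair.2 - y.2.unpair.2 % 3 ^ y.1)))
    (q := fun y => Nat.pair y.2.unpair.1 (sk D y.2.unpair.1 (mu (y.2.unpair.2 % 3 ^ y.1))
      (y.2.unpair.2 - y.2.unpair.2 % 3 ^ y.1)))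
    (A := fun v m => CC D v m.unpair.1 m.unpair.2) ?_ ?_ ?_ (fun m => rfl) ?_
  · have h1 := key.comp (g := fun n : ℕ => (n, Nat.pair (la n) n)) (by fun_prop)
    refine h1.of_eq fun n => ?_
    simp only [Nat.unpair_pair]
    rfl
  · have a1 : Computable fun y : (ℕ × ℕ) × (Bool × Bool × Bool) => act y.1.1 y.1.2.unpair.2 := by
      unfold act
      refine cand (cdecide (RE.cp_eq (f := fun y : (ℕ × ℕ) × (Bool × Bool × Bool) =>
        dg y.1.1 y.1.2.unpair.2) (g := fun _ => 0) (by fun_prop) (by fun_prop)).not) ?_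
      exact c_dlt (f := fun _ => 0) (g := fun y : (ℕ × ℕ) × (Bool × Bool × Bool) =>
        y.1.2.unpair.2 % 3 ^ y.1.1) (by fun_prop) (hm.comp Computable.fst)
    have a2 : Computable fun y : (ℕ × ℕ) × (Bool × Bool × Bool) =>
        decide (sel D y.1.2.unpair.1 (mu (y.1.2.unpair.2 % 3 ^ y.1.1))
          (y.1.2.unpair.2 - y.1.2.unpair.2 % 3 ^ y.1.1) <
          la (y.1.2.unpair.2 - y.1.2.unpair.2 % 3 ^ y.1.1)) :=
      c_dlt (hsel.comp Computable.fst)
        ((c_la htop).comp (g := fun y : (ℕ × ℕ) × (Bool × Bool × Bool) => y.1) Computable.fst)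
    fun_prop
  · unfold sh
    fun_prop
  · unfold sk
    fun_prop
  · intro v m
    rw [CC_succ]
    simp only [Nat.unpair_pair]
    rfl

end Pool.Agent.TH747.HT
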