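import Pool.Agent.TH747.HT.Diag

/-! No homogeneous set of the diagonal colouring is a projection of `ψ`. -/

namespace Pool.Agent.TH747.HT

open Encodable Filter Pool.Agent.H645R2.HT Pool.Agent.Helper446 Pool.Agent.Helper446.RE

theorem mem_L_pow {a x : ℕ} : x ∈ L (3 ^ a) ↔ x = a := by
  rw [mem_L]
  unfold dg
  rcases Nat.lt_trichotomy x a with h | h | h
  · obtain ⟨k, rfl⟩ := Nat.exists_eq_add_of_lt h
    have h1 : 3 ^ (x + k + 1) / 3 ^ x = 3 * 3 ^ k := by
      rw [show x + k + 1 = x + (k + 1) by ring, pow_add, Nat.mul_div_cancel_left _ (by positivity),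
        pow_succ, mul_comm]
    rw [h1, Nat.mul_mod_right]
    simp only [ne_eq, not_true_eq_false, false_iff]
    omega
  · subst h
    rw [Nat.div_self (by positivity)]
    simp
  · have h1 : 3 ^ a / 3 ^ x = 0 := Nat.div_eq_of_lt (Nat.pow_lt_pow_right (by norm_num) h)
    rw [h1]
    simp only [Nat.zero_mod, ne_eq, not_true_eq_false, false_iff]
    omega

theorem la_pow {a : ℕ} : la (3 ^ a) = a := mem_L_pow.1 (la_mem (by positivity))

/-- Every finite set is the set of positions of a number. -/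
theorem exists_code (G : Finset ℕ) : ∃ g, ∀ x, x ∈ L g ↔ x ∈ G := by
  induction G using Finset.induction_on_max with
  | empty => exact ⟨0, fun x => by simp [L]⟩
  | insert a s hs ih =>
    obtain ⟨g, hg⟩ := ih
    rcases Nat.eq_zero_or_pos g with h0 | h0
    · subst h0
      refine ⟨3 ^ a, fun x => ?_⟩
      rw [mem_L_pow, Finset.mem_insert, ← hg x]
      simp [L]
    · refine ⟨g + 3 ^ a, fun x => ?_⟩
      have h1 : mu g < a := hs _ ((hg _).1 (mu_mem h0))
      have h2 : Sep g (3 ^ a) := by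
        unfold Pool.Agent.H645R2.HT.Sep
        rw [la_pow]
        exact h1
      rw [L_add h2, List.mem_append, mem_L_pow, Finset.mem_insert, hg]
      tauto

theorem sum_L (g : ℕ) : (L g).sum = ∑ x ∈ (L g).toFinset, x := by
  rw [List.sum_toFinset _ (L_sorted g).nodup]
  simp

theorem L_pos {g : ℕ} (h : L g ≠ []) : 0 < g := by
  rw [Nat.pos_iff_ne_zero]
  rintro rfl
  exact h (by simp [L])

variable {D : ℕ → ℕ → Bool} {ψ : ℕ → Prop}

/-- `D` decides `ψ` in the limit along all idempotent ultrafilters. -/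
def LimDec (D : ℕ → ℕ → Bool) (ψ : ℕ → Prop) : Prop :=
  ∀ U : Ultrafilter ℕ, Idem U → ∀ z, ∀ᶠ l in (U : Filter ℕ), (D z l = true ↔ ψ z)

theorem no_chain (hlim : LimDec D ψ) {X : Set ℕ} (hX : X.Infinite) (hp : ∀ x ∈ X, 0 < x)
    (hc : ∃ i, ∀ F : Finset ℕ, F.Nonempty → (F : Set ℕ) ⊆ X → col D (∑ x ∈ F, x) = i) (e : ℕ)
    (hsub : ∀ x, (∃ a, ψ (Nat.pair e (Nat.pair x a))) → x ∈ X) (g : ℕ → ℕ)
    (hg : ∀ i ≤ e + 1, ∀ x ∈ L (g i), ∃ a, ψ (Nat.pair e (Nat.pair x a)))
    (h0 : ∀ i ≤ e + 1, 0 < g i) (h1 : ∀ i ≤ e, mu (g i) < la (g (i + 1)))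
    (h2 : ∀ i ≤ e, mu ((L (g i)).sum) < la ((L (g (i + 1))).sum)) : False := by
  classical
  obtain ⟨U, hU, hUX⟩ := exists_idem hX hp
  -- witnesses
  let a : ℕ → ℕ := fun x => if h : ∃ a, ψ (Nat.pair e (Nat.pair x a)) then h.choose else 0
  have ha : ∀ x, (∃ a, ψ (Nat.pair e (Nat.pair x a))) → ψ (Nat.pair e (Nat.pair x (a x))) := by
    intro x hx
    simp only [a, dif_pos hx]
    exact hx.choose_spec
  let M : ℕ := ∑ i ∈ Finset.range (e + 2), g i
  have hM : ∀ i ≤ e + 1, g i ≤ M := fun i hi =>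
    Finset.single_le_sum (f := g) (fun _ _ => Nat.zero_le _) (Finset.mem_range.2 (by omega))
  let W : ℕ := encode ((List.range M).map a)
  have hW : ∀ x < M, el W x = a x := by
    intro x hx
    unfold el dl
    simp only [W, encodek, Option.getD_some]
    rw [List.getElem?_map, List.getElem?_range hx]
    rfl
  let c : ℕ → ℕ := fun i => Nat.pair (g i) (Nat.pair (g (i + 1)) W)
  have cgh : ∀ i, gh (c i) = g i := fun i => by simp [gh, c]
  have cgk : ∀ i, gk (c i) = g (i + 1) := fun i => by simp [gk, c]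
  have cgw : ∀ i, gw (c i) = W := fun i => by simp [gw, c]
  have chh : ∀ i, hh (c i) = (L (g i)).sum := fun i => by unfold hh; rw [cgh]
  have ckk : ∀ i, kk (c i) = (L (g (i + 1))).sum := fun i => by unfold kk; rw [cgk]
  -- positivity of the sums
  have hsum : ∀ i ≤ e + 1, 0 < (L (g i)).sum := by
    intro i hi
    have h3 := la_mem (h0 i hi)
    have h4 := hp _ (hsub _ (hg i hi _ h3))
    exact lt_of_lt_of_le h4 (List.single_le_sum (fun _ _ => Nat.zero_le _) _ h3)
  -- a bound for the codes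
  obtain ⟨N, hN⟩ : ∃ N, ∀ i ≤ e, c i ≤ N ∧ mu (kk (c i)) ≤ N := by
    refine ⟨(Finset.range (e + 1)).sup (fun i => max (c i) (mu (kk (c i)))), fun i hi => ?_⟩
    have h5 : i ∈ Finset.range (e + 1) := Finset.mem_range.2 (Nat.lt_succ_of_le hi)
    have h6 := Finset.le_sup (f := fun i => max (c i) (mu (kk (c i)))) h5
    exact ⟨le_trans (le_max_left _ _) h6, le_trans (le_max_right _ _) h6⟩
  -- a bound for the relevant facts
  obtain ⟨Z, hZ⟩ : ∃ Z, ∀ p ≤ N, ∀ x ≤ N, Nat.pair e (Nat.pair x (el (gw p) x)) < Z := by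
    refine ⟨∑ p ∈ Finset.range (N + 1), ∑ x ∈ Finset.range (N + 1),
      Nat.pair e (Nat.pair x (el (gw p) x)) + 1, fun p hp x hx => ?_⟩
    have h5 : p ∈ Finset.range (N + 1) := Finset.mem_range.2 (Nat.lt_succ_of_le hp)
    have h6 : x ∈ Finset.range (N + 1) := Finset.mem_range.2 (Nat.lt_succ_of_le hx)
    have h7 := Finset.single_le_sum (f := fun p => ∑ x ∈ Finset.range (N + 1),
      Nat.pair e (Nat.pair x (el (gw p) x))) (fun _ _ => Nat.zero_le _) h5
    have h8 := Finset.single_le_sum (f := fun x => Nat.pair e (Nat.pair x (el (gw p) x)))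
      (fun _ _ => Nat.zero_le _) h6
    exact Nat.lt_succ_of_le (le_trans h8 h7)
  -- the typical element
  have t1 : ∀ᶠ l in (U : Filter ℕ), ∀ z ∈ Finset.range Z, (D z l = true ↔ ψ z) :=
    (eventually_all_finset _).2 fun z _ => hlim U hU z
  have t2 : ∀ᶠ l in (U : Filter ℕ), ∀ p ∈ Finset.range (N + 1),
      l ∈ FSm X ((L (gh p)).toFinset ∪ (L (gk p)).toFinset) :=
    (eventually_all_finset _).2 fun p _ => hUX _
  obtain ⟨l, ⟨⟨hl0, hl1⟩, hl2⟩, hl3⟩ := ((hU.far (max N e)).and t1 |>.and t2).exists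
  have hD : ∀ p ≤ N, ∀ x ≤ N, (D (Nat.pair e (Nat.pair x (el (gw p) x))) l = true ↔
      ψ (Nat.pair e (Nat.pair x (el (gw p) x)))) := fun p hp x hx =>
    hl2 _ (Finset.mem_range.2 (hZ p hp x hx))
  have hgN : ∀ p, gh p ≤ p ∧ gk p ≤ p := fun p => by
    unfold gh gk
    refine ⟨Nat.unpair_left_le p, ?_⟩
    exact le_trans (Nat.unpair_left_le _) (Nat.unpair_right_le p)
  -- some candidate of the chain is available
  have hsm : StrictMonoOn (fun i => la ((L (g i)).sum)) (Set.Iic (e + 1)) := by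
    have h5 : ∀ d i, i + d ≤ e + 1 → 0 < d → la ((L (g i)).sum) < la ((L (g (i + d))).sum) := by
      intro d
      induction d with
      | zero => intro i _ h; exact absurd h (lt_irrefl _)
      | succ d ih =>
        intro i hi _
        have h6 := h2 (i + d) (by omega)
        have h7 := la_le_mu (hsum (i + d) (by omega))
        rcases Nat.eq_zero_or_pos d with h8 | h8
        · subst h8
          rw [add_zero] at h6 h7
          exact lt_of_le_of_lt h7 h6
        · have h9 := ih i (by omega) h8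
          rw [← add_assoc]
          omega
    intro i _ j hj hij
    obtain ⟨d, rfl⟩ := Nat.exists_eq_add_of_lt hij
    exact h5 (d + 1) i (Set.mem_Iic.1 hj) (by omega)
  obtain ⟨i, hi, hit⟩ : ∃ i ≤ e, la ((L (g i)).sum) ∉ TT D l e := by
    by_contra hcon
    push Not at hcon
    have h5 : (Finset.range (e + 1)).image (fun i => la ((L (g i)).sum)) ⊆
        (TT D l e).toFinset := by
      intro y hy
      obtain ⟨i, hi, rfl⟩ := Finset.mem_image.1 hy
      rw [List.mem_toFinset]
      exact hcon i (by have := Finset.mem_range.1 hi; omega)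
    have h6 := Finset.card_le_card h5
    rw [Finset.card_image_of_injOn, Finset.card_range] at h6
    · have h7 := List.toFinset_card_le (TT D l e)
      have h8 := TT_length (D := D) (l := l) (e := e)
      omega
    · intro i hi j hj hij
      have hi' := Finset.mem_range.1 (Finset.mem_coe.1 hi)
      have hj' := Finset.mem_range.1 (Finset.mem_coe.1 hj)
      exact hsm.injOn (Set.mem_Iic.2 (by omega)) (Set.mem_Iic.2 (by omega)) hij
  have htst : tst D e l (TT D l e) (c i) = true := by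
    rw [tst_iff]
    have hav : ∀ j ≤ e + 1, g j ≤ N → ∀ x ∈ L (g j),
        D (Nat.pair e (Nat.pair x (el (gw (c i)) x))) l = true := by
      intro j hj hjN x hx
      have h5 : x < g j := dg_lt (mem_L.1 hx)
      have h6 := hM j hj
      rw [hD (c i) (hN i hi).1 x (by omega), cgw, hW x (by omega)]
      exact ha x (hg j hj x hx)
    have h5 := hgN (c i)
    rw [cgh, cgk] at h5
    have h6 := (hN i hi).1
    refine ⟨?_, ?_, ?_, ?_, ?_, ?_, ?_⟩
    · rw [cgh]; exact hav i (by omega) (by omega)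
    · rw [cgk]; exact hav (i + 1) (by omega) (by omega)
    · rw [cgh, cgk]; exact h1 i hi
    · rw [chh]; exact hsum i (by omega)
    · rw [chh, ckk]; exact h2 i hi
    · have := (hN i hi).2
      omega
    · rw [chh]; exact hit
  obtain ⟨h3, h4, -⟩ := lst_lt_of (q := tst D e l (TT D l e)) (n := la l) (i := c i)
    (by have := (hN i hi).1; omega) htst
  change pick D l e ≤ c i at h3
  change pick D l e < la l at h4
  have hne := col_ne hl0 (show e < la l by omega) h4
  have ht := tst_iff.1 (pick_tst h4)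
  have hpN : pick D l e ≤ N := le_trans h3 (hN i hi).1
  generalize pick D l e = p at *
  obtain ⟨hgh, hgk⟩ := hgN p
  have s1 : ∀ x ∈ L (gh p), x ∈ X := by
    intro x hx
    have h5 : x < gh p := dg_lt (mem_L.1 hx)
    exact hsub x ⟨_, (hD p hpN x (by omega)).1 (ht.1 x hx)⟩
  have s2 : ∀ x ∈ L (gk p), x ∈ X := by
    intro x hx
    have h5 : x < gk p := dg_lt (mem_L.1 hx)
    exact hsub x ⟨_, (hD p hpN x (by omega)).1 (ht.2.1 x hx)⟩
  obtain ⟨G, -, g2, g3, rfl⟩ := hl3 p (Finset.mem_range.2 (by omega))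
  rw [Finset.disjoint_union_left] at g3
  have d1 : Disjoint (L (gh p)).toFinset (L (gk p)).toFinset := by
    rw [Finset.disjoint_left]
    intro x hx hx'
    rw [List.mem_toFinset] at hx hx'
    have := le_mu hx
    have := la_le hx'
    have := ht.2.2.1
    omega
  obtain ⟨cc, hcc⟩ := hc
  have n1 : (L (gh p)).toFinset.Nonempty := by
    rw [List.toFinset_nonempty_iff]
    intro h5
    have h6 := ht.2.2.2.1
    unfold hh at h6
    rw [h5] at h6
    exact absurd h6 (by simp)
  apply hne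
  have e1 := hcc ((L (gh p)).toFinset ∪ G) (n1.mono Finset.subset_union_left) (by
    rw [Finset.coe_union]
    refine Set.union_subset ?_ g2
    intro x hx
    exact s1 x (by simpa using hx))
  have e2 := hcc ((L (gh p)).toFinset ∪ ((L (gk p)).toFinset ∪ G))
    (n1.mono Finset.subset_union_left) (by
    rw [Finset.coe_union, Finset.coe_union]
    refine Set.union_subset ?_ (Set.union_subset ?_ g2)
    · intro x hx
      exact s1 x (by simpa using hx)
    · intro x hx
      exact s2 x (by simpa using hx))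
  rw [Finset.sum_union g3.1, ← sum_L] at e1
  rw [Finset.sum_union (by rw [Finset.disjoint_union_right]; exact ⟨d1, g3.1⟩),
    Finset.sum_union g3.2, ← sum_L, ← sum_L] at e2
  unfold hh kk
  rw [e1, e2]

/-- Far finite subsets. -/
theorem exists_next {X : Set ℕ} (hX : X.Infinite) (hp : ∀ x ∈ X, 0 < x) (A B : ℕ) :
    ∃ g, (∀ x ∈ L g, x ∈ X) ∧ 0 < g ∧ A < la g ∧ B < la ((L g).sum) := by
  obtain ⟨U, hU, hUX⟩ := exists_idem hX hp
  obtain ⟨l, ⟨hl0, hl1⟩, G, g1, g2, g3, rfl⟩ :=
    ((hU.far B).and (hUX (Finset.range (A + 1)))).exists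
  obtain ⟨g, hg⟩ := exists_code G
  have hG : (L g).toFinset = G := by
    ext x
    rw [List.mem_toFinset, hg]
  have h0 : L g ≠ [] := by
    obtain ⟨x, hx⟩ := g1
    intro hc
    have := (hg x).2 hx
    rw [hc] at this
    simp at this
  refine ⟨g, fun x hx => g2 ((hg x).1 hx), L_pos h0, ?_, ?_⟩
  · by_contra hc
    have h1 : la g ∈ G := (hg _).1 (la_mem (L_pos h0))
    exact Finset.disjoint_left.1 g3 (Finset.mem_range.2 (by omega)) h1
  · rw [sum_L, hG]
    exact hl1

/-- No homogeneous set is a projection of `ψ`. -/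
theorem no_solution (hlim : LimDec D ψ) {X : Set ℕ} (hX : X.Infinite) (hp : ∀ x ∈ X, 0 < x)
    (hc : ∃ i, ∀ F : Finset ℕ, F.Nonempty → (F : Set ℕ) ⊆ X → col D (∑ x ∈ F, x) = i) (e : ℕ)
    (hXe : ∀ x, x ∈ X ↔ ∃ a, ψ (Nat.pair e (Nat.pair x a))) : False := by
  have hn := exists_next hX hp
  choose F f1 f2 f3 f4 using hn
  let g : ℕ → ℕ := fun n => Nat.rec (F 0 0) (fun _ r => F (mu r) (mu ((L r).sum))) n
  have hg : ∀ n, (∀ x ∈ L (g n), x ∈ X) ∧ 0 < g n := by
    intro n
    cases n with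
    | zero => exact ⟨f1 _ _, f2 _ _⟩
    | succ n => exact ⟨f1 _ _, f2 _ _⟩
  exact no_chain hlim hX hp hc e (fun x hx => (hXe x).2 hx) g
    (fun i _ x hx => (hXe x).1 ((hg i).1 x hx)) (fun i _ => (hg i).2)
    (fun i _ => f3 _ _) (fun i _ => f4 _ _)

end Pool.Agent.TH747.HT
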