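import Mathlib
import Pool.Agent.H645R2.HT.Digits

/-! Idempotent ultrafilters on the natural numbers which contain all sets of finite sums of an
infinite set. -/

namespace Pool.Agent.TH747.HT

open Filter Pool.Agent.H645R2.HT

attribute [local instance] Ultrafilter.add Ultrafilter.addSemigroup

/-- Sums of nonempty finite subsets of `X` disjoint from `F`. -/
def FSm (X : Set ℕ) (F : Finset ℕ) : Set ℕ :=
  {n | ∃ G : Finset ℕ, G.Nonempty ∧ (G : Set ℕ) ⊆ X ∧ Disjoint F G ∧ n = ∑ x ∈ G, x}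

/-- Idempotent ultrafilters concentrated on the positive numbers. -/
def Idem (U : Ultrafilter ℕ) : Prop :=
  (∀ p : ℕ → Prop, (∀ᶠ n in (U : Filter ℕ), ∀ᶠ m in (U : Filter ℕ), p (n + m)) ↔
    ∀ᶠ n in (U : Filter ℕ), p n) ∧ ∀ᶠ n in (U : Filter ℕ), 0 < n

theorem FSm_anti {X : Set ℕ} {F F' : Finset ℕ} (h : F ⊆ F') : FSm X F' ⊆ FSm X F := by
  rintro n ⟨G, h1, h2, h3, h4⟩
  exact ⟨G, h1, h2, Finset.disjoint_of_subset_left h h3, h4⟩

theorem exists_idem {X : Set ℕ} (hX : X.Infinite) (hp : ∀ x ∈ X, 0 < x) :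
    ∃ U : Ultrafilter ℕ, Idem U ∧ ∀ F : Finset ℕ, ∀ᶠ n in (U : Filter ℕ), n ∈ FSm X F := by
  let S : Set (Ultrafilter ℕ) := ⋂ F : Finset ℕ, {U | ∀ᶠ m in (U : Filter ℕ), m ∈ FSm X F}
  have h := exists_idempotent_in_compact_add_subsemigroup (M := Ultrafilter ℕ)
    Ultrafilter.continuous_add_left S ?_ ?_ ?_
  · obtain ⟨U, hU, hid⟩ := h
    rw [Set.mem_iInter] at hU
    refine ⟨U, ⟨fun p => ?_, ?_⟩, hU⟩
    · rw [← Ultrafilter.eventually_add, hid]
    · filter_upwards [hU ∅] with n hn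
      obtain ⟨G, h1, h2, -, rfl⟩ := hn
      exact Finset.sum_pos (fun i hi => hp i (h2 hi)) h1
  · refine IsCompact.nonempty_iInter_of_directed_nonempty_isCompact_isClosed _ ?_ ?_ ?_ ?_
    · intro F F'
      refine ⟨F ∪ F', ?_, ?_⟩
      · intro U hU
        filter_upwards [hU] with n hn
        exact FSm_anti Finset.subset_union_left hn
      · intro U hU
        filter_upwards [hU] with n hn
        exact FSm_anti Finset.subset_union_right hn
    · intro F
      obtain ⟨x, hx, hxF⟩ := hX.exists_notMem_finset F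
      refine ⟨pure x, ?_⟩
      refine mem_pure.mpr ⟨{x}, by simp, by simpa using hx, ?_, by simp⟩
      rw [Finset.disjoint_singleton_right]
      exact hxF
    · intro F
      exact (ultrafilter_isClosed_basic _).isCompact
    · intro F
      exact ultrafilter_isClosed_basic _
  · exact IsClosed.isCompact (isClosed_iInter fun i => ultrafilter_isClosed_basic _)
  · intro U hU V hV
    rw [Set.mem_iInter] at *
    intro F
    show ∀ᶠ m in ((U + V : Ultrafilter ℕ) : Filter ℕ), m ∈ FSm X F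
    rw [Ultrafilter.eventually_add]
    filter_upwards [hU F] with m hm
    obtain ⟨G, h1, h2, h3, rfl⟩ := hm
    filter_upwards [hV (F ∪ G)] with m' hm'
    obtain ⟨G', h1', h2', h3', rfl⟩ := hm'
    rw [Finset.disjoint_union_left] at h3'
    refine ⟨G ∪ G', h1.mono Finset.subset_union_left, ?_, ?_, ?_⟩
    · rw [Finset.coe_union]
      exact Set.union_subset h2 h2'
    · rw [Finset.disjoint_union_right]
      exact ⟨h3, h3'.1⟩
    · rw [Finset.sum_union h3'.2]

theorem Idem.dvd {U : Ultrafilter ℕ} (hU : Idem U) {N : ℕ} (hN : 0 < N) :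
    ∀ᶠ n in (U : Filter ℕ), N ∣ n := by
  have h1 : ∃ r ∈ Finset.range N, ∀ᶠ n in (U : Filter ℕ), n % N = r := by
    have h2 : ∀ᶠ n in (U : Filter ℕ), ∃ r ∈ Finset.range N, n % N = r :=
      Eventually.of_forall fun n => ⟨n % N, Finset.mem_range.2 (Nat.mod_lt _ hN), rfl⟩
    have h3 := (Ultrafilter.eventually_exists_mem_iff (f := U) (Finset.finite_toSet
      (Finset.range N)) (P := fun r n => n % N = r)).1 (by simpa using h2)
    simpa using h3
  obtain ⟨r, hr, h2⟩ := h1
  have h3 : ∀ᶠ n in (U : Filter ℕ), ∀ᶠ m in (U : Filter ℕ), (n + m) % N = r := (hU.1 _).2 h2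
  obtain ⟨n, hn, hn'⟩ := (h2.and h3).exists
  obtain ⟨m, hm, hm'⟩ := (h2.and hn').exists
  have hr0 : r = 0 := by
    rw [Nat.add_mod, hn, hm] at hm'
    have hr1 := Finset.mem_range.1 hr
    rcases Nat.lt_or_ge (r + r) N with h4 | h4
    · rw [Nat.mod_eq_of_lt h4] at hm'
      omega
    · have h5 : (r + r) % N = r + r - N := by
        rw [Nat.mod_eq_sub_mod h4, Nat.mod_eq_of_lt (by omega)]
      omega
  subst hr0
  filter_upwards [h2] with n hn
  exact Nat.dvd_of_mod_eq_zero hn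

theorem le_la_of_dvd {n N : ℕ} (hn : 0 < n) (h : 3 ^ N ∣ n) : N ≤ la n := by
  by_contra hc
  push Not at hc
  have h1 : dg (la n) n ≠ 0 := mem_L.1 (la_mem hn)
  apply h1
  obtain ⟨q, rfl⟩ := h
  have h2 := dg_add_low (m := 0) (q := q) hc
  rw [zero_add] at h2
  rw [h2]
  simp [dg]

theorem Idem.far {U : Ultrafilter ℕ} (hU : Idem U) (N : ℕ) :
    ∀ᶠ n in (U : Filter ℕ), 0 < n ∧ N < la n := by
  filter_upwards [hU.2, hU.dvd (N := 3 ^ (N + 1)) (by positivity)] with n h1 h2
  exact ⟨h1, le_la_of_dvd h1 h2⟩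

/-- A colour which is constant on a large set. -/
theorem exists_const {U : Ultrafilter ℕ} (f : ℕ → ℕ) (K : ℕ)
    (h : ∀ᶠ n in (U : Filter ℕ), f n < K) : ∃ r < K, ∀ᶠ n in (U : Filter ℕ), f n = r := by
  have h2 : ∀ᶠ n in (U : Filter ℕ), ∃ r ∈ Finset.range K, f n = r := by
    filter_upwards [h] with n hn
    exact ⟨f n, Finset.mem_range.2 hn, rfl⟩
  have h3 := (Ultrafilter.eventually_exists_mem_iff (f := U) (Finset.finite_toSet
    (Finset.range K)) (P := fun r n => f n = r)).1 (by simpa using h2)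
  simpa using h3

end Pool.Agent.TH747.HT
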